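import Pool.Agent.H30.VX.Targets
import Pool.Agent.H5.BDE.DSP
import Pool.Agent.H48.CE.SEP

/-!
# (RED): reduction to 2-connected graphs
-/

set_option autoImplicit false

namespace Pool.Agent.H12.VX

open Finset Pool.Agent.H48.CE Pool.Agent.H30.VR Pool.Agent.H30.VX

theorem nb_card_lt {V : Type} (G : SimpleGraph V) {S : Finset V} {v : V} (hv : v ∈ S) :
    (nb G S v).card ≤ S.card - 1 := by
  classical
  have h : nb G S v ⊆ S.erase v := by
    intro w hw
    rw [mem_nb] at hw
    rw [mem_erase]
    exact ⟨fun h => G.loopless.irrefl v (by rw [h] at hw; exact hw.2), hw.1⟩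
  exact (card_le_card h).trans (card_erase_of_mem hv).le

theorem ee_le {V : Type} (G : SimpleGraph V) (S : Finset V) :
    ee G S S ≤ S.card * (S.card - 1) := by
  unfold ee
  calc ∑ v ∈ S, (nb G S v).card ≤ ∑ v ∈ S, (S.card - 1) :=
        sum_le_sum fun v hv => nb_card_lt G hv
    _ = S.card * (S.card - 1) := by rw [sum_const, smul_eq_mul]

theorem adj_of_ee {V : Type} (G : SimpleGraph V) (S : Finset V)
    (h : ee G S S = S.card * (S.card - 1)) : ∀ x ∈ S, ∀ y ∈ S, x ≠ y → G.Adj x y := by
  classical
  have h1 : ∀ v ∈ S, (nb G S v).card = S.card - 1 := by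
    by_contra hne
    push Not at hne
    obtain ⟨v, hv, hne⟩ := hne
    have hlt : (nb G S v).card < S.card - 1 := lt_of_le_of_ne (nb_card_lt G hv) hne
    have : ∑ v ∈ S, (nb G S v).card < ∑ v ∈ S, (S.card - 1) :=
      sum_lt_sum (fun v hv => nb_card_lt G hv) ⟨v, hv, hlt⟩
    rw [sum_const, smul_eq_mul] at this
    unfold ee at h
    omega
  intro x hx y hy hxy
  have hsub : nb G S x ⊆ S.erase x := by
    intro w hw
    rw [mem_nb] at hw
    rw [mem_erase]
    exact ⟨fun h => G.loopless.irrefl x (by rw [h] at hw; exact hw.2), hw.1⟩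
  have heq : nb G S x = S.erase x := by
    apply eq_of_subset_of_card_le hsub
    rw [card_erase_of_mem hx, h1 x hx]
  have : y ∈ nb G S x := by
    rw [heq, mem_erase]
    exact ⟨fun h => hxy h.symm, hy⟩
  exact (mem_nb.1 this).2

theorem cyc_len {V : Type} {G : SimpleGraph V} {S : Finset V} {v : V} (c : G.Walk v v)
    (hc : c.IsCycle) (hs : ∀ x ∈ c.support, x ∈ S) : c.length ≤ S.card := by
  classical
  have h1 : c.support.tail.Nodup := hc.support_nodup
  have h2 : c.support.tail.length = c.length := by
    rw [List.length_tail, SimpleGraph.Walk.length_support]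
    omega
  rw [← h2, ← List.toFinset_card_of_nodup h1]
  apply card_le_card
  intro x hx
  rw [List.mem_toFinset] at hx
  exact hs x (List.mem_of_mem_tail hx)

theorem ff_mono (hFFA : T_FFA) {k : ℕ} (hk : 1 ≤ k) {a b : ℕ} (ha : 1 ≤ a) (hab : a ≤ b) :
    ff k a ≤ ff k b := by
  induction b, hab using Nat.le_induction with
  | base => exact le_rfl
  | succ n hn ih => exact ih.trans (hFFA k n hk (by omega)).1.le

theorem pf_RED (hTCC : T_TCC) (hFFA : T_FFA) (hFFB : T_FFB) (hFFC : T_FFC) : T_RED := by
  classical
  intro k hk hyp V G hrun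
  have key : ∀ n : ℕ, ∀ S : Finset V, S.card = n → S.Nonempty →
      ee G S S ≤ ff k S.card ∧ (ee G S S = ff k S.card → Str G k S) := by
    intro n
    induction n using Nat.strong_induction_on with
    | _ n ih =>
      intro S hSn hS
      have hS1 : 1 ≤ S.card := hS.card_pos
      by_cases hsm : S.card ≤ 2 * k + 1
      · have hff : ff k S.card = S.card * (S.card - 1) := (hFFB k S.card hk hS1).2.2 hsm
        refine ⟨by rw [hff]; exact ee_le G S, fun heq => ?_⟩
        intro v c hc hs
        refine ⟨(cyc_len c hc hs).trans hsm, fun x hx y hy hxy => ?_⟩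
        exact adj_of_ee G S (by rw [heq, hff]) x (hs x hx) y (hs y hy) hxy
      · by_cases htc : TC G S
        · have hlt : ee G S S < ff k S.card := by
            have h1 : Bd (rs G S) k := bd_rs fun R hR hRn hRS =>
              (ih R.card (by
                rw [← hSn]
                exact card_lt_card (Finset.ssubset_iff_subset_ne.2 ⟨hR, hRS⟩)) R rfl hRn).1
            have h2 := hyp (rs G S) (hTCC G S htc) (by rw [card_rs]; omega)
              (fun h => hrun (rs_hasRun h)) h1
            rw [card_rs, ee_rs_univ] at h2
            exact h2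
          exact ⟨hlt.le, fun h => absurd h hlt.ne⟩
        · unfold TC at htc
          push Not at htc
          obtain ⟨A, B, hA, hB, hcov, hone, hsep, hAS, hBS⟩ := htc
          obtain ⟨d1, d2, d3, d4, d5, d6⟩ := Pool.Agent.H5.BDE.pf_DSP G S A B hA hB hcov hone hsep
            hAS hBS
          rw [← ee_self, ← ee_self, ← ee_self] at d1
          have iA := ih A.card (by omega) A rfl d5
          have iB := ih B.card (by omega) B rfl d6
          have a1 : 1 ≤ A.card := d5.card_pos
          have b1 : 1 ≤ B.card := d6.card_pos
          have h1 := hFFC k A.card B.card hk a1 b1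
          have h2 : ff k (A.card + B.card - 1) ≤ ff k S.card :=
            ff_mono hFFA hk (by omega) (by omega)
          have iA1 := iA.1
          have iB1 := iB.1
          refine ⟨by omega, fun heq => ?_⟩
          have eA : ee G A A = ff k A.card := by omega
          have eB : ee G B B = ff k B.card := by omega
          have sA := iA.2 eA
          have sB := iB.2 eB
          intro v c hc hs
          rcases pf_SEP G A B hone hsep v c hc (fun x hx => hcov x (hs x hx)) with h | h
          · exact sA v c hc h
          · exact sB v c hc h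
  intro S hS
  exact key S.card S rfl hS

end Pool.Agent.H12.VX
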